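import Mathlib

set_option autoImplicit false

namespace Pool.Agent.H.MP_f2fe1e_co.A

open Finset Classical SimpleGraph

/-- a finite tree with nonnegative edge weights whose leaf set is identified with `V` -/
structure WT (V : Type) where
  N : Type
  fin : Finite N
  T : SimpleGraph N
  tree : T.IsTree
  w : Sym2 N → ℝ
  nonneg : ∀ e, 0 ≤ w e
  leaf : V → N
  inj : Function.Injective leaf
  leaves : ∀ x, x ∈ Set.range leaf ↔ ∃! y, T.Adj x y

/-- total weight of the unique path between two leaves -/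
noncomputable def WT.d {V : Type} (t : WT V) (u v : V) : ℝ :=
  ((t.tree.existsUnique_path (t.leaf u) (t.leaf v)).choose.edges.map t.w).sum

/-- an interval of nonnegative reals -/
def IsInt (I : Set ℝ) : Prop := I.OrdConnected ∧ I ⊆ Set.Ici 0

/-- pairwise compatibility graph -/
def PCG {V : Type} (G : SimpleGraph V) : Prop :=
  ∃ (t : WT V) (I : Set ℝ), IsInt I ∧ ∀ u v, u ≠ v → (G.Adj u v ↔ t.d u v ∈ I)

/-- `k`-interval-PCG -/
def KInt {V : Type} (k : ℕ) (G : SimpleGraph V) : Prop :=
  ∃ (t : WT V) (I : Fin k → Set ℝ), (∀ i, IsInt (I i)) ∧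
    (Pairwise fun i j => Disjoint (I i) (I j)) ∧ ∀ u v, u ≠ v → (G.Adj u v ↔ ∃ i, t.d u v ∈ I i)

/-- OR-`k`-PCG -/
def OrK {V : Type} (k : ℕ) (G : SimpleGraph V) : Prop :=
  ∃ (t : Fin k → WT V) (I : Fin k → Set ℝ), (∀ i, IsInt (I i)) ∧
    ∀ u v, u ≠ v → (G.Adj u v ↔ ∃ i, (t i).d u v ∈ I i)

/-- AND-`k`-PCG -/
def AndK {V : Type} (k : ℕ) (G : SimpleGraph V) : Prop :=
  ∃ (t : Fin k → WT V) (I : Fin k → Set ℝ), (∀ i, IsInt (I i)) ∧
    ∀ u v, u ≠ v → (G.Adj u v ↔ ∀ i, (t i).d u v ∈ I i)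

section
variable {N : Type} (T : SimpleGraph N)

/-- joined by a walk avoiding `e` -/
def R (e : Sym2 N) (x y : N) : Prop := ∃ p : T.Walk x y, e ∉ p.edges

variable {T}

theorem R.refl (e : Sym2 N) (x : N) : R T e x x := ⟨.nil, by simp⟩

theorem R.symm {e : Sym2 N} {x y : N} : R T e x y → R T e y x :=
  fun ⟨p, h⟩ => ⟨p.reverse, by simpa using h⟩

theorem R.trans {e : Sym2 N} {x y z : N} : R T e x y → R T e y z → R T e x z :=
  fun ⟨p, h⟩ ⟨q, h'⟩ => ⟨p.append q, by simp [h, h']⟩

theorem two (hT : T.Connected) (e : Sym2 N) {x y z : N} (h1 : ¬ R T e x z) (h2 : ¬ R T e y z) :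
    R T e x y := by
  induction e using Sym2.ind with
  | _ a b =>
    have key : ∀ u v (p : T.Walk u v), R T s(a, b) u v ∨ R T s(a, b) u a ∨ R T s(a, b) u b := by
      intro u v p
      induction p with
      | nil => exact Or.inl (R.refl _ _)
      | @cons u u' v h p ih =>
        by_cases c : s(a, b) = s(u, u')
        · rcases Sym2.eq_iff.1 c with ⟨rfl, -⟩ | ⟨-, rfl⟩
          · exact Or.inr (Or.inl (R.refl _ _))
          · exact Or.inr (Or.inr (R.refl _ _))
        · have : R T s(a, b) u u' := ⟨h.toWalk, by simpa using c⟩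
          exact ih.imp this.trans (Or.imp this.trans this.trans)
    have k : ∀ u, R T s(a, b) u a ∨ R T s(a, b) u b := fun u =>
      (key u a (hT u a).some).elim Or.inl id
    rcases k x with c | c <;> rcases k y with c' | c' <;> rcases k z with c'' | c''
    all_goals first
      | exact c.trans c'.symm
      | exact absurd (c.trans c''.symm) h1
      | exact absurd (c'.trans c''.symm) h2

theorem inc {e f : Sym2 N} {x y p z : N} (h1 : R T e x y) (h2 : ¬ R T f x y) (h3 : R T e p z)
    (h4 : ¬ R T f p z) : R T e x p := by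
  induction f using Sym2.ind with
  | _ a b =>
    have key : ∀ u v, R T e u v → ¬ R T s(a, b) u v → R T e u a := by
      rintro u v ⟨q, hq⟩ h
      have : s(a, b) ∈ q.edges := by
        by_contra c
        exact h ⟨q, c⟩
      exact ⟨q.takeUntil a (q.fst_mem_support_of_mem_edges this),
        fun c => hq (q.edges_takeUntil_subset_edges _ c)⟩
    exact (key x y h1 h2).trans (key p z h3 h4).symm
end

theorem four {V : Type} (t : WT V) (p q r s : V) :
    t.d p q + t.d r s ≤ max (t.d p r + t.d q s) (t.d p s + t.d q r) := by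
  have := t.fin
  have := Fintype.ofFinite t.N
  have hd : ∀ u v, t.d u v = ∑ e, if R t.T e (t.leaf u) (t.leaf v) then 0 else t.w e := by
    intro u v
    obtain ⟨h1, h2⟩ := (t.tree.existsUnique_path (t.leaf u) (t.leaf v)).choose_spec
    rw [WT.d, ← List.sum_toFinset _ h1.isTrail.edges_nodup, ← univ_inter (List.toFinset _),
      ← sum_ite_mem]
    refine sum_congr rfl fun e _ => ?_
    by_cases c : R t.T e (t.leaf u) (t.leaf v)
    · obtain ⟨w, hw⟩ := id c
      rw [if_pos c, if_neg]
      rw [List.mem_toFinset, ← h2 _ w.bypass_isPath]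
      exact fun a => hw (w.edges_bypass_subset_edges a)
    · rw [if_neg c, if_pos]
      by_contra a
      exact c ⟨_, fun b => a (List.mem_toFinset.2 b)⟩
  have hs : ∀ e, ∃ σ : t.N → Prop, ∀ x y, R t.T e x y ↔ (σ x ↔ σ y) := fun e =>
    ⟨fun x => R t.T e x (t.leaf p), fun x y => ⟨fun h => ⟨h.symm.trans, h.trans⟩, fun h => by
      by_cases c : R t.T e x (t.leaf p)
      · exact c.trans (h.1 c).symm
      · exact two t.tree.connected e c fun c' => c (h.2 c')⟩⟩
  simp only [hd, ← sum_add_distrib]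
  clear hd
  by_cases c : ∃ e, R t.T e (t.leaf p) (t.leaf r) ∧ R t.T e (t.leaf q) (t.leaf s) ∧
      ¬ R t.T e (t.leaf p) (t.leaf q)
  · obtain ⟨e, e1, e2, e3⟩ := c
    refine le_max_of_le_right (sum_le_sum fun f _ => ?_)
    have h1 := fun a b => e3 (inc (f := f) e1 a e2 b)
    have h2 := t.nonneg f
    obtain ⟨σ, h⟩ := hs f
    simp only [h] at h1 ⊢
    clear h hs
    by_cases σ (t.leaf p) <;> by_cases σ (t.leaf q) <;> by_cases σ (t.leaf r) <;>
      by_cases σ (t.leaf s) <;> simp_all
  · refine le_max_of_le_left (sum_le_sum fun f _ => ?_)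
    have h1 := fun a => c ⟨f, a⟩
    have h2 := t.nonneg f
    obtain ⟨σ, h⟩ := hs f
    simp only [h] at h1 ⊢
    clear h hs c
    by_cases σ (t.leaf p) <;> by_cases σ (t.leaf q) <;> by_cases σ (t.leaf r) <;>
      by_cases σ (t.leaf s) <;> simp_all

end Pool.Agent.H.MP_f2fe1e_co.A
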