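import Mathlib

set_option autoImplicit false

namespace Pool.Agent.H.MP_f2fe1e_co.B

open Finset Classical

/-- length of the common initial segment -/
def cp : List ℕ → List ℕ → ℕ
  | a :: x, b :: y => if a = b then cp x y + 1 else 0
  | _, _ => 0

/-- words of length `m` over `r` letters -/
def ok (r m : ℕ) (x : List ℕ) : Prop := x.length = m ∧ ∀ a ∈ x, a < r

theorem ok.cons {r m a : ℕ} {x : List ℕ} (h : ok r m x) (ha : a < r) : ok r (m + 1) (a :: x) :=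
  ⟨by simp [h.1], by simpa [ha] using h.2⟩

theorem ok.mono {r r' m : ℕ} {x : List ℕ} (h : ok r m x) (e : r ≤ r') : ok r' m x :=
  ⟨h.1, fun a ha => (h.2 a ha).trans_le e⟩

theorem fin (r m : ℕ) : {x : List ℕ | x.length ≤ m ∧ ∀ a ∈ x, a < r}.Finite := by
  induction m with
  | zero => exact (Set.finite_singleton []).subset fun x hx => by simpa using hx.1
  | succ m ih =>
    refine ((Set.Finite.image2 List.cons (Set.finite_Iio r) ih).insert []).subset fun x hx => ?_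
    cases x with
    | nil => simp
    | cons a x =>
      exact Or.inr ⟨a, hx.2 a (by simp), x, ⟨by simpa using hx.1, fun b hb => hx.2 b (by simp [hb])⟩,
        rfl⟩

instance (r m : ℕ) : Finite {x // ok r m x} :=
  ((fin r m).subset fun _ h => ⟨h.1.le, h.2⟩ : {x | ok r m x}.Finite)

/-- embedding shifting the meeting level by `s` -/
def Emb (r' m' r m s : ℕ) (φ : List ℕ → List ℕ) : Prop :=
  ∀ x, ok r' m' x → ok r m (φ x) ∧ ∀ y, ok r' m' y → cp (φ x) (φ y) = cp x y + s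

theorem ram (Q : Type) [Fintype Q] (r' r : ℕ) (h : Fintype.card Q * r' < r) (m : ℕ) :
    ∀ χ : List ℕ → Q, ∃ φ c, Emb r' m r m 0 φ ∧ ∀ x, ok r' m x → χ (φ x) = c := by
  induction m with
  | zero =>
    intro χ
    refine ⟨id, χ [], fun x hx => ⟨⟨hx.1, ?_⟩, fun _ _ => rfl⟩, fun x hx => ?_⟩ <;>
      simp [List.length_eq_zero_iff.1 hx.1]
  | succ m ih =>
    intro χ
    choose φ c h1 h2 using fun a => ih fun x => χ (a :: x)
    obtain ⟨q, -, hq⟩ := exists_lt_card_fiber_of_mul_lt_card_of_maps_to (s := range r) (t := univ)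
      (f := c) (n := r') (fun _ _ => mem_univ _) (by simpa using h)
    let e := orderEmbOfCardLe _ hq.le
    let g : ℕ → ℕ := fun b => if h : b < r' then e ⟨b, h⟩ else 0
    have g1 : ∀ b < r', g b < r ∧ c (g b) = q := fun b hb => by
      simpa [g, hb] using orderEmbOfCardLe_mem _ hq.le ⟨b, hb⟩
    have g2 : ∀ a < r', ∀ b < r', g a = g b ↔ a = b := fun a ha b hb => by simp [g, ha, hb]
    have sp : ∀ x, ok r' (m + 1) x → ∃ b y, x = b :: y ∧ b < r' ∧ ok r' m y := fun x hx => by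
      cases x with
      | nil => exact absurd hx.1 (by simp)
      | cons b y =>
        exact ⟨b, y, rfl, hx.2 b (by simp), by simpa using hx.1, fun a ha => hx.2 a (by simp [ha])⟩
    refine ⟨fun x => g (x.headD 0) :: φ (g (x.headD 0)) x.tail, q, fun x hx => ?_, fun x hx => ?_⟩
    · obtain ⟨a, x, rfl, a1, a2⟩ := sp x hx
      refine ⟨(h1 _ x a2).1.cons (g1 a a1).1, fun y hy => ?_⟩
      obtain ⟨b, y, rfl, b1, b2⟩ := sp y hy
      simp only [List.headD_cons, List.tail_cons, cp, g2 a a1 b b1]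
      split_ifs with e
      · rw [← e, (h1 _ x a2).2 y b2]
      · rfl
    · obtain ⟨a, x, rfl, a1, a2⟩ := sp x hx
      exact (h2 _ x a2).trans (g1 a a1).2

theorem bi (Q : Type) [Fintype Q] [Inhabited Q] (r'' m : ℕ) : ∃ r, r'' ≤ r ∧
    ∀ χ : List ℕ → List ℕ → Q, ∃ φ ψ c, Emb r'' m r m 0 φ ∧ Emb r'' m r m 0 ψ ∧
      ∀ x y, ok r'' m x → ok r'' m y → χ (φ x) (ψ y) = c := by
  obtain ⟨r', hr⟩ : ∃ r', r' = Fintype.card Q * r'' + 1 := ⟨_, rfl⟩
  have := Fintype.ofFinite {x // ok r' m x}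
  refine ⟨Fintype.card ({x // ok r' m x} → Q) * r'' + r' + r'', by omega, fun χ => ?_⟩
  obtain ⟨φ, c, h1, h2⟩ := ram ({x // ok r' m x} → Q) r''
    (Fintype.card ({x // ok r' m x} → Q) * r'' + r' + r'') (by omega) m fun x y => χ x y.1
  obtain ⟨ψ, q, h3, h4⟩ := ram Q r'' r' (by omega) m
    fun y => if h : ok r' m y then c ⟨y, h⟩ else default
  refine ⟨φ, ψ, q, h1, fun x hx => ⟨(h3 x hx).1.mono (by omega), (h3 x hx).2⟩,
    fun x y hx hy => ?_⟩
  rw [← h4 y hy, dif_pos (h3 y hy).1, ← h2 x hx]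

/-- four point inequality -/
def FP (d : List ℕ → List ℕ → ℝ) : Prop :=
  ∀ p q r s, d p q + d r s ≤ max (d p r + d q s) (d p s + d q r)

theorem split {d : List ℕ → List ℕ → ℝ} (h : FP d) (D : ℝ → Prop)
    (hD : ∀ s t, s ≤ t → D t → D s) (P : List ℕ → Prop) (φ ψ : List ℕ → List ℕ)
    (hc : ∀ x y, P x → P y → D (d (φ x) (ψ y))) :
    (∀ x y, P x → P y → D (d (φ x) (φ y))) ∨ ∀ x y, P x → P y → D (d (ψ x) (ψ y)) := by
  by_contra c
  push Not at c
  obtain ⟨⟨x, y, hx, hy, a⟩, u, v, hu, hv, b⟩ := c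
  have l : ∀ s t, D t → ¬ D s → t < s := fun s t a b => not_le.1 fun e => b (hD s t e a)
  have := h (φ x) (φ y) (ψ u) (ψ v)
  have := l _ _ (hc x u hx hu) a
  have := l _ _ (hc y v hy hv) b
  have := l _ _ (hc x v hx hv) a
  have := l _ _ (hc y u hy hu) b
  rcases le_max_iff.1 ‹_ ≤ max _ _› with e | e <;> linarith

theorem below {I : Set ℝ} (hI : I.OrdConnected) {s : ℝ} (h1 : ∃ t ∈ I, s ≤ t) (h2 : s ∉ I) :
    ∀ t ∈ I, s < t := fun t ht => by
  obtain ⟨u, hu, e⟩ := h1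
  exact not_le.1 fun c => h2 (hI.out ht hu ⟨c, e⟩)

theorem orc (K : Type) [Fintype K] (j : ℕ) : ∃ r, 2 ≤ r ∧
    ∀ I : K → Set ℝ, (∀ c, (I c).OrdConnected) → ∀ (d : K → List ℕ → List ℕ → ℝ) (A : Finset K),
    (∀ c, FP (d c)) → #A ≤ j →
    (∀ x y, ok r (2 * j + 1) x → ok r (2 * j + 1) y → Even (cp x y) → ∃ c ∈ A, d c x y ∈ I c) →
    (∀ x y, ok r (2 * j + 1) x → ok r (2 * j + 1) y → Odd (cp x y) → cp x y < 2 * j + 1 →
      ∀ c ∈ A, d c x y ∉ I c) → False := by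
  induction j with
  | zero =>
    refine ⟨2, le_rfl, fun I _ d A _ hA h _ => ?_⟩
    obtain ⟨c, hc, -⟩ := h [0] [1] (by simp [ok]) (by simp [ok]) (by simp [cp])
    have := card_pos.2 ⟨c, hc⟩
    omega
  | succ j ih =>
    obtain ⟨r0, r2, ih⟩ := ih
    obtain ⟨r, rr, hr⟩ := bi (Option K) r0 (2 * j + 2)
    refine ⟨r, by omega, fun I hI d A hd hA h1 h2 => ?_⟩
    have : ∀ x y, ∃ q : Option K, ok r (2 * j + 2) x → ok r (2 * j + 2) y →
        ∃ c ∈ A, q = some c ∧ d c (0 :: x) (1 :: y) ∈ I c := fun x y => by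
      by_cases e : ok r (2 * j + 2) x ∧ ok r (2 * j + 2) y
      · obtain ⟨c, a, b⟩ := h1 _ _ (e.1.cons (a := 0) (by omega)) (e.2.cons (a := 1) (by omega))
          (by simp [cp])
        exact ⟨c, fun _ _ => ⟨c, a, rfl, b⟩⟩
      · exact ⟨none, fun a b => absurd ⟨a, b⟩ e⟩
    choose χ hχ using this
    obtain ⟨φ, ψ, q, a1, a2, a3⟩ := hr χ
    have z : ok r0 (2 * j + 2) (List.replicate (2 * j + 2) 0) :=
      ⟨by simp, fun a ha => by rw [List.eq_of_mem_replicate ha]; omega⟩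
    obtain ⟨c, cA, c1, -⟩ := hχ _ _ (a1 _ z).1 (a2 _ z).1
    rw [a3 _ _ z z] at c1
    obtain ⟨θ, t1, t2⟩ : ∃ θ, Emb r0 (2 * j + 2) r (2 * (j + 1) + 1) 1 θ ∧ ∀ x y,
        ok r0 (2 * j + 2) x → ok r0 (2 * j + 2) y → ∃ t ∈ I c, d c (θ x) (θ y) ≤ t := by
      have e : ∀ a < r, ∀ φ, Emb r0 (2 * j + 2) r (2 * j + 2) 0 φ →
          Emb r0 (2 * j + 2) r (2 * (j + 1) + 1) 1 fun x => a :: φ x := fun a ha φ h x hx =>
        ⟨(h x hx).1.cons ha, fun y hy => by simp [cp, (h x hx).2 y hy]⟩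
      rcases split (hd c) (fun s => ∃ t ∈ I c, s ≤ t)
        (fun s t e ⟨u, a, b⟩ => ⟨u, a, e.trans b⟩) (ok r0 (2 * j + 2)) (fun x => 0 :: φ x)
        (fun x => 1 :: ψ x) (fun x y hx hy => by
          obtain ⟨c', -, b1, b2⟩ := hχ _ _ (a1 _ hx).1 (a2 _ hy).1
          rw [a3 _ _ hx hy, c1, Option.some_inj] at b1
          exact ⟨_, b1 ▸ b2, le_rfl⟩) with h | h
      · exact ⟨_, e 0 (by omega) φ a1, h⟩
      · exact ⟨_, e 1 (by omega) ψ a2, h⟩
    obtain ⟨η, s1, s2⟩ : ∃ η, Emb r0 (2 * j + 1) r (2 * (j + 1) + 1) 2 η ∧ ∀ x y,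
        ok r0 (2 * j + 1) x → ok r0 (2 * j + 1) y → ∀ t ∈ I c, d c (η x) (η y) < t := by
      have e : ∀ a < r0, Emb r0 (2 * j + 1) r (2 * (j + 1) + 1) 2 fun x => θ (a :: x) :=
        fun a ha x hx => ⟨(t1 _ (hx.cons ha)).1, fun y hy => by
          simp [cp, (t1 _ (hx.cons ha)).2 _ (hy.cons ha)]⟩
      rcases split (hd c) (fun s => ∀ t ∈ I c, s < t)
        (fun s t e a u b => e.trans_lt (a u b)) (ok r0 (2 * j + 1)) (fun x => θ (0 :: x))
        (fun x => θ (1 :: x)) (fun x y hx hy => by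
          have hx := hx.cons (a := 0) (by omega)
          have hy := hy.cons (a := 1) (by omega)
          have := (t1 _ hx).2 _ hy
          exact below (hI c) (t2 _ _ hx hy) (h2 _ _ (t1 _ hx).1 (t1 _ hy).1
            (by simp [this, cp]) (by simp [this, cp]) c cA)) with h | h
      · exact ⟨_, e 0 (by omega), h⟩
      · exact ⟨_, e 1 (by omega), h⟩
    refine ih I hI (fun c x y => d c (η x) (η y)) (A.erase c) (fun c p q r s => hd c _ _ _ _)
      (by rw [card_erase_of_mem cA]; omega) (fun x y hx hy e => ?_) fun x y hx hy e l c' hc => ?_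
    · obtain ⟨c', b1, b2⟩ := h1 _ _ (s1 x hx).1 (s1 y hy).1
        (by rw [(s1 x hx).2 y hy]; exact e.add even_two)
      refine ⟨c', mem_erase.2 ⟨?_, b1⟩, b2⟩
      rintro rfl
      exact lt_irrefl _ (s2 x y hx hy _ b2)
    · exact h2 _ _ (s1 x hx).1 (s1 y hy).1 (by rw [(s1 x hx).2 y hy]; exact e.add_even even_two)
        (by rw [(s1 x hx).2 y hy]; omega) c' (mem_of_mem_erase hc)

theorem andc (k : ℕ) : ∃ r, 2 ≤ r ∧ ∀ I : Fin k → Set ℝ, (∀ c, (I c).OrdConnected) →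
    ∀ d : Fin k → List ℕ → List ℕ → ℝ, (∀ c, FP (d c)) →
    (∀ x y, ok r 3 x → ok r 3 y → Even (cp x y) → ∀ c, d c x y ∈ I c) →
    (∀ x y, ok r 3 x → ok r 3 y → cp x y = 1 → ∃ c, d c x y ∉ I c) → False := by
  obtain ⟨r, rr, hr⟩ := bi (Option (Fin k)) (k + 2) 1
  refine ⟨r, by omega, fun I hI d hd h1 h2 => ?_⟩
  have : ∀ c, ∃ b, ∀ i < r, i ≠ b → ∀ x y, ok r 2 x → ok r 2 y →
      ∃ t ∈ I c, d c (i :: x) (i :: y) ≤ t := fun c => by
    by_cases e : ∃ b < r, ¬ ∀ x y, ok r 2 x → ok r 2 y → ∃ t ∈ I c, d c (b :: x) (b :: y) ≤ t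
    · obtain ⟨b, b1, b2⟩ := e
      exact ⟨b, fun i hi ib => (split (hd c) (fun s => ∃ t ∈ I c, s ≤ t)
        (fun s t e ⟨u, a, b⟩ => ⟨u, a, e.trans b⟩) (ok r 2) (i :: ·) (b :: ·) fun x y hx hy =>
        ⟨_, h1 _ _ (hx.cons hi) (hy.cons b1) (by simp [cp, ib]) c, le_rfl⟩).resolve_right b2⟩
    · push Not at e
      exact ⟨0, fun i hi _ => e i hi⟩
  choose b hb using this
  obtain ⟨i, i1, i2⟩ := exists_mem_notMem_of_card_lt_card (s := univ.image b) (t := range r)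
    (card_image_le.trans_lt (by simp; omega))
  rw [mem_range] at i1
  have : ∀ x y, ∃ q : Option (Fin k), ok r 1 x → ok r 1 y →
      ∃ c, q = some c ∧ d c (i :: 0 :: x) (i :: 1 :: y) ∉ I c := fun x y => by
    by_cases e : ok r 1 x ∧ ok r 1 y
    · obtain ⟨c, a⟩ := h2 _ _ ((e.1.cons (a := 0) (by omega)).cons i1)
        ((e.2.cons (a := 1) (by omega)).cons i1) (by simp [cp])
      exact ⟨c, fun _ _ => ⟨c, rfl, a⟩⟩
    · exact ⟨none, fun a b => absurd ⟨a, b⟩ e⟩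
  choose χ hχ using this
  obtain ⟨φ, ψ, q, a1, a2, a3⟩ := hr χ
  have z : ok (k + 2) 1 [0] := by simp [ok]
  have z' : ok (k + 2) 1 [1] := by simp [ok]
  obtain ⟨c, c1, -⟩ := hχ _ _ (a1 _ z).1 (a2 _ z).1
  rw [a3 _ _ z z] at c1
  have e : ∀ a < r, ∀ φ, Emb (k + 2) 1 r 1 0 φ → d c (i :: a :: φ [0]) (i :: a :: φ [1]) ∈ I c :=
    fun a ha φ h => h1 _ _ (((h _ z).1.cons ha).cons i1) (((h _ z').1.cons ha).cons i1)
      (by simp [cp, (h _ z).2 _ z']) c
  rcases split (hd c) (fun s => ∀ t ∈ I c, s < t) (fun s t e a u b => e.trans_lt (a u b))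
    (ok (k + 2) 1) (fun x => i :: 0 :: φ x) (fun x => i :: 1 :: ψ x) (fun x y hx hy => by
      obtain ⟨c', b1, b2⟩ := hχ _ _ (a1 _ hx).1 (a2 _ hy).1
      rw [a3 _ _ hx hy, c1, Option.some_inj] at b1
      exact below (hI c) (hb c i i1 (fun e => i2 (mem_image.2 ⟨c, mem_univ _, e.symm⟩)) _ _
        ((a1 _ hx).1.cons (by omega)) ((a2 _ hy).1.cons (by omega))) (b1 ▸ b2)) with h | h
  · exact lt_irrefl _ (h _ _ z z' _ (e 0 (by omega) φ a1))
  · exact lt_irrefl _ (h _ _ z z' _ (e 1 (by omega) ψ a2))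

end Pool.Agent.H.MP_f2fe1e_co.B
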