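import Pool.Agent.H.MP_f2fe1e_co.A
import Pool.Agent.H.MP_f2fe1e_co.B

set_option autoImplicit false

namespace Pool.Agent.H.MP_f2fe1e_co.C

open Finset Classical SimpleGraph Pool.Agent.H.MP_f2fe1e_co.A Pool.Agent.H.MP_f2fe1e_co.B

theorem cp_self (x : List ℕ) : cp x x = x.length := by
  induction x with
  | nil => rfl
  | cons a x ih => simp [cp, ih]

theorem cp_comm (x : List ℕ) : ∀ y, cp x y = cp y x := by
  induction x with
  | nil => intro y; cases y <;> rfl
  | cons a x ih => intro y; cases y <;> simp [cp, ih, eq_comm]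

theorem cp_lt (x : List ℕ) : ∀ y, x.length = y.length → x ≠ y → cp x y < x.length := by
  induction x with
  | nil => intro y h e; exact absurd (List.length_eq_zero_iff.1 h.symm).symm e
  | cons a x ih =>
    intro y h e
    cases y with
    | nil => simp at h
    | cons b y =>
      simp only [cp]
      split_ifs with c
      · simpa using ih y (by simpa using h) fun e' => e (by rw [c, e'])
      · simp

theorem cp_snoc (x : List ℕ) (a : ℕ) : ∀ y, cp x y ≤ cp x (y ++ [a]) ∧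
    cp x (y ++ [a]) ≤ cp x y + 1 := by
  induction x with
  | nil => intro y; simp [cp]
  | cons b x ih =>
    intro y
    cases y with
    | nil =>
      have : cp x [] = 0 := by cases x <;> rfl
      simp only [cp, List.nil_append, this]
      split_ifs <;> simp
    | cons c y =>
      simp only [cp, List.cons_append]
      have := ih y
      split_ifs <;> omega

theorem acyc {V : Type} (G : SimpleGraph V) (f : V → ℕ) (p : V → V)
    (h : ∀ u w, G.Adj u w → f w ≤ f u → w = p u) : G.IsAcyclic := by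
  intro v c hc
  obtain ⟨u, hu, hmax⟩ := exists_max_image c.support.toFinset f ⟨v, by simp⟩
  rw [List.mem_toFinset] at hu
  have hc' := hc.rotate hu
  have hnil := hc'.not_nil
  have hm : ∀ w ∈ (c.rotate u hu).support, f w ≤ f u := fun w hw =>
    hmax w (List.mem_toFinset.2 ((Walk.mem_support_rotate_iff c u hu).1 hw))
  apply hc'.snd_ne_penultimate
  rw [h u _ (Walk.adj_snd hnil) (hm _ (Walk.getVert_mem_support _ _)),
    h u _ (Walk.adj_penultimate hnil).symm (hm _ (Walk.getVert_mem_support _ _))]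

/-- nodes -/
abbrev Nd (r m : ℕ) : Type := {x : List ℕ // x.length ≤ m ∧ ∀ a ∈ x, a < r}

/-- the complete tree -/
def Tr (r m : ℕ) : SimpleGraph (Nd r m) := fromRel fun x y => ∃ a, y.1 = x.1 ++ [a]

theorem adj {r m : ℕ} (x y : Nd r m) :
    (Tr r m).Adj x y ↔ (∃ a, y.1 = x.1 ++ [a]) ∨ ∃ a, x.1 = y.1 ++ [a] := by
  rw [Tr, fromRel_adj, and_iff_right_iff_imp]
  rintro (⟨a, h⟩ | ⟨a, h⟩) rfl <;> simp at h

theorem root (r m : ℕ) (l : List ℕ) : ∀ h, ∃ W : (Tr r m).Walk ⟨l, h⟩ ⟨[], by simp⟩,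
    W.length = l.length := by
  induction l using List.reverseRecOn with
  | nil => exact fun _ => ⟨.nil, rfl⟩
  | append_singleton l a ih =>
    intro h
    obtain ⟨W, hW⟩ := ih ⟨by have := h.1; simp at this; omega, fun b hb => h.2 b (by simp [hb])⟩
    exact ⟨.cons ((adj _ _).2 (Or.inr ⟨a, rfl⟩)) W, by simp [hW]⟩

theorem walk (r m : ℕ) : ∀ x y : Nd r m, ∃ W : (Tr r m).Walk x y,
    W.length + 2 * cp x.1 y.1 = x.1.length + y.1.length := by
  have z : ∀ m, ∀ x y : Nd r m, cp x.1 y.1 = 0 → ∃ W : (Tr r m).Walk x y,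
      W.length + 2 * cp x.1 y.1 = x.1.length + y.1.length := fun m x y h => by
    obtain ⟨W, hW⟩ := root r m x.1 x.2
    obtain ⟨W', hW'⟩ := root r m y.1 y.2
    refine ⟨W.append W'.reverse, ?_⟩
    rw [h, ← hW, ← hW']
    exact (Walk.length_append _ _).trans (by rw [Walk.length_reverse])
  induction m with
  | zero =>
    intro x y
    refine z 0 x y ?_
    rw [List.length_eq_zero_iff.1 (Nat.le_zero.1 x.2.1)]
    rfl
  | succ m ih =>
    rintro ⟨x, hx⟩ ⟨y, hy⟩
    by_cases c : cp x y = 0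
    · exact z _ _ _ c
    cases x with
    | nil => exact absurd rfl c
    | cons a x =>
      cases y with
      | nil => exact absurd rfl c
      | cons b y =>
        obtain rfl : a = b := by
          by_contra e
          exact c (by simp [cp, e])
        obtain ⟨W, hW⟩ := ih ⟨x, by simpa using hx.1, fun b hb => hx.2 b (by simp [hb])⟩
          ⟨y, by simpa using hy.1, fun b hb => hy.2 b (by simp [hb])⟩
        let f : Tr r m →g Tr r (m + 1) := ⟨fun u => ⟨a :: u.1, by simpa using u.2.1, by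
          simpa [hx.2 a (by simp)] using u.2.2⟩, fun h => by simpa [adj] using h⟩
        refine ⟨W.map f, ?_⟩
        simp only [Walk.length_map, cp, if_true, List.length_cons] at hW ⊢
        omega

theorem lip {r m : ℕ} {y x : Nd r m} (W : (Tr r m).Walk y x) :
    x.1.length + y.1.length ≤ W.length + 2 * cp x.1 y.1 := by
  induction W with
  | nil => simp [cp_self, two_mul]
  | @cons u v x h W ih =>
    rcases (adj _ _).1 h with ⟨a, e⟩ | ⟨a, e⟩
    · have := cp_snoc x.1 a u.1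
      rw [e] at ih
      simp only [List.length_append, List.length_singleton, Walk.length_cons] at ih ⊢
      omega
    · have := cp_snoc x.1 a v.1
      rw [e]
      simp only [List.length_append, List.length_singleton, Walk.length_cons] at ih ⊢
      omega

theorem tree (r m : ℕ) (hr : 2 ≤ r) (hm : 1 ≤ m) : ∃ t : WT {x // ok r m x},
    ∀ u v, t.d u v = 2 * m - 2 * cp u.1 v.1 := by
  have c : (Tr r m).Connected := by
    have : Nonempty (Nd r m) := ⟨⟨[], by simp⟩⟩
    exact ⟨fun x y => ⟨(walk r m x y).choose⟩⟩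
  let p : Nd r m → Nd r m := fun x => ⟨x.1.dropLast, by
    have := x.2.1
    simp only [List.length_dropLast]
    omega, fun a ha => x.2.2 a (List.mem_of_mem_dropLast ha)⟩
  have hp : ∀ u w, (Tr r m).Adj u w → w.1.length ≤ u.1.length → w = p u := fun u w h e => by
    rcases (adj _ _).1 h with ⟨a, b⟩ | ⟨a, b⟩
    · simp [b] at e
    · exact Subtype.ext (by simp [p, b])
  have tr : (Tr r m).IsTree := ⟨c, acyc _ (fun x => x.1.length) p hp⟩
  refine ⟨⟨Nd r m, fin r m, Tr r m, tr, fun _ => 1,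
    fun _ => zero_le_one, fun x => ⟨x.1, x.2.1.le, x.2.2⟩,
    fun x y e => Subtype.ext (congrArg (fun u : Nd r m => u.1) e), fun x => ⟨?_, ?_⟩⟩, fun u v => ?_⟩
  · rintro ⟨⟨x, hx⟩, rfl⟩
    refine ⟨p _, (adj _ _).2 (Or.inr ⟨x.getLast ?_, (List.dropLast_append_getLast _).symm⟩),
      fun y hy => hp _ y hy (y.2.1.trans hx.1.ge)⟩
    rintro rfl
    have := hx.1
    simp at this
    omega
  · rintro ⟨y, -, h⟩
    by_cases e : x.1.length = m
    · exact ⟨⟨x.1, e, x.2.2⟩, rfl⟩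
    have k : ∀ a < r, (x.1 ++ [a]).length ≤ m ∧ ∀ b ∈ x.1 ++ [a], b < r := fun a ha =>
      ⟨by have := x.2.1; simp; omega, by simpa [or_imp, forall_and, ha] using x.2.2⟩
    have := (h ⟨_, k 0 (by omega)⟩ ((adj _ _).2 (Or.inl ⟨0, rfl⟩))).trans
      (h ⟨_, k 1 (by omega)⟩ ((adj _ _).2 (Or.inl ⟨1, rfl⟩))).symm
    simpa using congrArg Subtype.val this
  · rw [WT.d]
    obtain ⟨Q, q1, q2⟩ := c.exists_path_of_dist ⟨u.1, u.2.1.le, u.2.2⟩ ⟨v.1, v.2.1.le, v.2.2⟩
    obtain ⟨W, hW⟩ := walk r m ⟨u.1, u.2.1.le, u.2.2⟩ ⟨v.1, v.2.1.le, v.2.2⟩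
    have h1 := dist_le W
    have h2 := lip Q
    rw [← (tr.existsUnique_path _ _).choose_spec.2 Q q1]
    simp only [u.2.1, v.2.1, cp_comm v.1] at hW h2
    have : Q.length + 2 * cp u.1 v.1 = 2 * m := by omega
    simp only [List.map_const', List.sum_replicate, Walk.length_edges, nsmul_eq_mul, mul_one]
    rw [eq_sub_iff_add_eq]
    exact_mod_cast this

/-- extension of the distance to all words -/
theorem ext {r m : ℕ} (z : {x // ok r m x}) (t : WT {x // ok r m x}) :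
    ∃ d : List ℕ → List ℕ → ℝ, FP d ∧ ∀ x y hx hy, d x y = t.d ⟨x, hx⟩ ⟨y, hy⟩ :=
  ⟨fun x y => t.d (if h : ok r m x then ⟨x, h⟩ else z) (if h : ok r m y then ⟨y, h⟩ else z),
    fun _ _ _ _ => four t _ _ _ _, fun x y hx hy => by simp only [dif_pos hx, dif_pos hy]⟩

/-- words meeting at an odd level -/
def G (r m : ℕ) : SimpleGraph {x // ok r m x} where
  Adj x y := x ≠ y ∧ Odd (cp x.1 y.1)
  symm := ⟨fun x y h => ⟨h.1.symm, cp_comm x.1 y.1 ▸ h.2⟩⟩
  loopless := ⟨fun _ h => h.1 rfl⟩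

theorem pos (r k : ℕ) (hr : 2 ≤ r) : ∃ t : WT {x // ok r (2 * k + 1) x}, ∀ u v, u ≠ v →
    ((G r (2 * k + 1)).Adj u v ↔ ∃ i : Fin k, t.d u v ∈ ({4 * (i : ℝ) + 4} : Set ℝ)) := by
  obtain ⟨t, ht⟩ := tree r (2 * k + 1) hr (by omega)
  refine ⟨t, fun u v e => ?_⟩
  have := cp_lt u.1 v.1 (u.2.1.trans v.2.1.symm) fun c => e (Subtype.ext c)
  rw [u.2.1] at this
  simp only [G, ht, Set.mem_singleton_iff, sub_eq_iff_eq_add]
  norm_cast
  refine ⟨fun ⟨_, j, hj⟩ => ⟨⟨k - j - 1, by omega⟩, ?_⟩, fun ⟨i, hi⟩ => ⟨e, k - i - 1, by omega⟩⟩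
  simp only
  omega

theorem int (a : ℝ) (h : 0 ≤ a) : IsInt {a} := ⟨Set.ordConnected_singleton, by simpa using h⟩

theorem ne {r k : ℕ} {x y : List ℕ} (hx : ok r (2 * k + 1) x) (hy : ok r (2 * k + 1) y)
    (h : cp x y ≠ 2 * k + 1) : (⟨x, hx⟩ : {x // ok r (2 * k + 1) x}) ≠ ⟨y, hy⟩ := fun e => by
  obtain rfl : x = y := congrArg Subtype.val e
  exact h ((cp_self x).trans hx.1)

theorem orr (k : ℕ) : ∃ r, KInt k (G r (2 * k + 1)) ∧ ¬ OrK k (G r (2 * k + 1))ᶜ := by
  obtain ⟨r, r2, hr⟩ := orc (Fin k) k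
  obtain ⟨t, ht⟩ := pos r k r2
  refine ⟨r, ⟨t, _, fun i => int _ (by positivity), fun i j e => ?_, ht⟩, ?_⟩
  · simpa [Fin.val_inj] using e
  · rintro ⟨s, I, h1, h2⟩
    choose d d1 d2 using fun c => ext ⟨List.replicate (2 * k + 1) 0, by simp, fun a ha => by
      rw [List.eq_of_mem_replicate ha]; omega⟩ (s c)
    refine hr I (fun c => (h1 c).1) d univ d1 (by simp) (fun x y hx hy e => ?_)
      fun x y hx hy e l c _ b => ?_
    · have n := ne hx hy (by obtain ⟨j, hj⟩ := e; omega)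
      obtain ⟨c, hc⟩ := (h2 _ _ n).1 ⟨n, fun a => Nat.not_even_iff_odd.2 a.2 e⟩
      exact ⟨c, mem_univ _, d2 c x y hx hy ▸ hc⟩
    · have n := ne hx hy l.ne
      exact ((h2 _ _ n).2 ⟨c, d2 c x y hx hy ▸ b⟩).2 ⟨n, e⟩

theorem andd (k : ℕ) : ∃ r, PCG (G r 3) ∧ ¬ AndK k (G r 3)ᶜ := by
  obtain ⟨r, r2, hr⟩ := andc k
  obtain ⟨t, ht⟩ := pos r 1 r2
  refine ⟨r, ⟨t, {4}, int _ (by positivity), fun u v e => by simpa using ht u v e⟩, ?_⟩
  rintro ⟨s, I, h1, h2⟩
  choose d d1 d2 using fun c => ext ⟨[0, 0, 0], by simp [ok]; omega⟩ (s c)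
  refine hr I (fun c => (h1 c).1) d d1 (fun x y hx hy e c => ?_) fun x y hx hy e => ?_
  · have n := ne (k := 1) hx hy (by obtain ⟨j, hj⟩ := e; omega)
    exact d2 c x y hx hy ▸ (h2 _ _ n).1 ⟨n, fun a => Nat.not_even_iff_odd.2 a.2 e⟩ c
  · have n := ne (k := 1) hx hy (by omega)
    by_contra b
    push Not at b
    exact ((h2 _ _ n).2 fun c => d2 c x y hx hy ▸ b c).2 ⟨n, by simp [e]⟩

end Pool.Agent.H.MP_f2fe1e_co.C
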